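import Mathlib
import Pool.Agent.Y727.CS.Stm

/-! Integration by parts against the radial bump. -/

set_option autoImplicit false

namespace Pool.Agent.Y427.CS

open Pool.Agent.Y727.CS MeasureTheory Metric

lemma psi_cont : Continuous psi := by
  unfold psi
  fun_prop

lemma psi_zero1 {s : ℝ} (h : s ≤ 1) : psi s = 0 := by
  unfold psi
  apply max_eq_left
  nlinarith

lemma psi_zero2 {s : ℝ} (h : 2 ≤ s) : psi s = 0 := by
  unfold psi
  apply max_eq_left
  nlinarith

lemma phi_deriv (s : ℝ) : HasDerivAt phi (-psi s) s :=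
  intervalIntegral.integral_hasDerivAt_left (psi_cont.intervalIntegrable _ _)
    psi_cont.stronglyMeasurable.stronglyMeasurableAtFilter psi_cont.continuousAt

lemma phi_cont : Continuous phi :=
  continuous_iff_continuousAt.2 fun s => (phi_deriv s).continuousAt

lemma phi_zero {s : ℝ} (h : 2 ≤ s) : phi s = 0 := by
  unfold phi
  rw [intervalIntegral.integral_symm, neg_eq_zero]
  apply intervalIntegral.integral_zero_ae
  refine Filter.Eventually.of_forall fun u hu => ?_
  rw [Set.uIoc_of_le h] at hu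
  exact psi_zero2 hu.1.le

lemma nsq_cont (d : ℕ) : Continuous (nsq : (Fin d → ℝ) → ℝ) := by
  unfold nsq
  fun_prop

lemma nsq_big {d : ℕ} {x : Fin d → ℝ} (h : x ∉ closedBall (0 : Fin d → ℝ) 2) : 2 ≤ nsq x := by
  by_contra hc
  rw [not_le] at hc
  apply h
  rw [mem_closedBall, dist_zero_right, pi_norm_le_iff_of_nonneg (by norm_num)]
  intro j
  have h1 : x j ^ 2 ≤ nsq x :=
    Finset.single_le_sum (f := fun j => x j ^ 2) (fun _ _ => sq_nonneg _) (Finset.mem_univ j)
  rw [Real.norm_eq_abs]
  apply abs_le_of_sq_le_sq _ (by norm_num)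
  linarith

lemma cpt {d : ℕ} (f : ℝ → ℝ) (hf : ∀ s, 2 ≤ s → f s = 0) (F : (Fin d → ℝ) → ℂ) :
    HasCompactSupport (fun x : Fin d → ℝ => (f (nsq x) : ℂ) * F x) := by
  refine HasCompactSupport.of_support_subset_isCompact
    (isCompact_closedBall (0 : Fin d → ℝ) 2) ?_
  intro x hx
  by_contra h
  refine hx ?_
  simp only [hf _ (nsq_big h), Complex.ofReal_zero, zero_mul]

theorem t_int : S_int := by
  intro d F hF
  constructor
  · refine Continuous.integrable_of_hasCompactSupport ?_ (cpt phi (fun _ => phi_zero) F)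
    exact (Complex.continuous_ofReal.comp (phi_cont.comp (nsq_cont d))).mul hF
  · refine Continuous.integrable_of_hasCompactSupport ?_ (cpt psi (fun _ => psi_zero2) F)
    exact (Complex.continuous_ofReal.comp (psi_cont.comp (nsq_cont d))).mul hF

lemma nsq_line {d : ℕ} (i : Fin d) (x : Fin d → ℝ) :
    HasDerivAt (fun t : ℝ => nsq (x + t • (Pi.single i (1 : ℝ) : Fin d → ℝ))) (2 * x i) 0 := by
  have h1 : ∀ t : ℝ, nsq (x + t • (Pi.single i (1 : ℝ) : Fin d → ℝ)) =
      nsq x + 2 * x i * t + t ^ 2 := by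
    intro t
    unfold nsq
    have h2 : ∀ j : Fin d, (x + t • (Pi.single i (1 : ℝ) : Fin d → ℝ)) j ^ 2 =
        x j ^ 2 + if j = i then 2 * x i * t + t ^ 2 else 0 := by
      intro j
      by_cases hj : j = i
      · subst hj
        simp
        ring
      · simp [hj]
    simp_rw [h2]
    rw [Finset.sum_add_distrib, Finset.sum_ite_eq' Finset.univ i, if_pos (Finset.mem_univ i)]
    ring
  simp_rw [h1]
  have a : HasDerivAt (fun t : ℝ => nsq x + 2 * x i * t) (2 * x i) 0 := by
    simpa using ((hasDerivAt_id (0 : ℝ)).const_mul (2 * x i)).const_add (nsq x)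
  have b : HasDerivAt (fun t : ℝ => t ^ 2) 0 (0 : ℝ) := by
    simpa using hasDerivAt_pow 2 (0 : ℝ)
  simpa using a.fun_add b

theorem t_ibp : S_ibp := by
  intro d i F F' hF hF' hd
  have hx : Continuous fun x : Fin d → ℝ => (x i : ℂ) :=
    Complex.continuous_ofReal.comp (continuous_apply i)
  have i1 := (t_int d F hF).1
  have i2 := (t_int d F' hF').1
  have i3 := (t_int d (fun x => (x i : ℂ) * F x) (hx.mul hF)).2
  have h1 : ∀ x : Fin d → ℝ, HasLineDerivAt ℝ (fun x : Fin d → ℝ => (phi (nsq x) : ℂ))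
      ((-(psi (nsq x)) * (2 * x i) : ℝ) : ℂ) x (Pi.single i 1) := by
    intro x
    unfold HasLineDerivAt
    have a1 := nsq_line i x
    have a2 : HasDerivAt phi (-psi (nsq x))
        (nsq (x + (0 : ℝ) • (Pi.single i (1 : ℝ) : Fin d → ℝ))) := by
      rw [zero_smul, add_zero]; exact phi_deriv _
    have a3 := a2.comp (0 : ℝ) a1
    exact a3.ofReal_comp
  have h2 := integral_bilinear_hasLineDerivAt_right_eq_neg_left_of_integrable
    (μ := (volume : Measure (Fin d → ℝ)))
    (f := fun x : Fin d → ℝ => (phi (nsq x) : ℂ))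
    (f' := fun x : Fin d → ℝ => ((-(psi (nsq x)) * (2 * x i) : ℝ) : ℂ)) (g := F) (g' := F')
    (v := Pi.single i 1) (B := ContinuousLinearMap.mul ℝ ℂ) ?_ ?_ ?_ ?_ ?_
  · simp only [ContinuousLinearMap.mul_apply'] at h2
    rw [h2, ← integral_neg, ← integral_const_mul]
    refine integral_congr_ae (Filter.Eventually.of_forall fun x => ?_)
    simp only
    push_cast
    ring
  · simp only [ContinuousLinearMap.mul_apply']
    refine (i3.const_mul (-2)).congr (Filter.Eventually.of_forall fun x => ?_)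
    simp only
    push_cast
    ring
  · exact i2
  · exact i1
  · first
      | exact h1
      | exact fun x _ => h1 x
  · first
      | exact hd
      | exact fun x _ => hd x

end Pool.Agent.Y427.CS
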