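import Mathlib
import Pool.Agent.Y727.CS.Stm

/-! Reduction of the frozen statement to the even case. -/

set_option autoImplicit false

namespace Pool.Agent.Y427.CS

open Pool.Agent.Y727.CS Matrix

section
variable {n m : ℕ}

/-- the Clifford generator on the product -/
noncomputable abbrev hg (n : ℕ) {m : ℕ} (γ : Matrix (Fin m) (Fin m) ℂ) :
    Matrix (Fin n × Fin m) (Fin n × Fin m) ℂ := kronecker 1 γ

/-- the coefficient on the product -/
noncomputable abbrev hA {n : ℕ} (m : ℕ) (A : Matrix (Fin n) (Fin n) ℂ) :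
    Matrix (Fin n × Fin m) (Fin n × Fin m) ℂ := kronecker A 1

lemma hg_mul (γ γ' : Matrix (Fin m) (Fin m) ℂ) : hg n γ * hg n γ' = hg n (γ * γ') := by
  have h := mul_kronecker_mul (1 : Matrix (Fin n) (Fin n) ℂ) (1 : Matrix (Fin n) (Fin n) ℂ) γ γ'
  rw [one_mul] at h
  exact h.symm

lemma hg_one : hg n (1 : Matrix (Fin m) (Fin m) ℂ) = 1 := one_kronecker_one

lemma hg_neg (γ : Matrix (Fin m) (Fin m) ℂ) : hg n (-γ) = -hg n γ := by
  ext i j
  simp [hg, kronecker, kroneckerMap_apply]

lemma hA_hg (A : Matrix (Fin n) (Fin n) ℂ) (γ : Matrix (Fin m) (Fin m) ℂ) :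
    hA m A * hg n γ = kronecker A γ := by
  have h := mul_kronecker_mul A (1 : Matrix (Fin n) (Fin n) ℂ) (1 : Matrix (Fin m) (Fin m) ℂ) γ
  rw [one_mul, mul_one] at h
  exact h.symm

lemma hg_hA (A : Matrix (Fin n) (Fin n) ℂ) (γ : Matrix (Fin m) (Fin m) ℂ) :
    hg n γ * hA m A = kronecker A γ := by
  have h := mul_kronecker_mul (1 : Matrix (Fin n) (Fin n) ℂ) A γ (1 : Matrix (Fin m) (Fin m) ℂ)
  rw [one_mul, mul_one] at h
  exact h.symm

lemma kr_sub (A : Matrix (Fin n) (Fin n) ℂ) (c : ℂ) (γ : Matrix (Fin m) (Fin m) ℂ) :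
    kronecker (A - c • (1 : Matrix (Fin n) (Fin n) ℂ)) γ = kronecker A γ - c • hg n γ := by
  ext i j
  simp only [hg, kronecker, kroneckerMap_apply, Matrix.sub_apply, Matrix.smul_apply, smul_eq_mul]
  ring

/-- The matrix of the frozen statement. -/
lemma sum_eq {d : ℕ} (A : Fin d → Matrix (Fin n) (Fin n) ℂ) (γ : Fin d → Matrix (Fin m) (Fin m) ℂ)
    (x : Fin d → ℝ) :
    ∑ j : Fin d, kronecker (A j - ((x j : ℂ)) • (1 : Matrix (Fin n) (Fin n) ℂ)) (γ j) =
      ∑ j, hA m (A j) * hg n (γ j) - ∑ j, (x j : ℂ) • hg n (γ j) := by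
  rw [← Finset.sum_sub_distrib]
  refine Finset.sum_congr rfl fun j _ => ?_
  rw [kr_sub, hA_hg]

end

open scoped ComplexOrder in
/-- A Hermitian matrix has no eigenvalues `c i` with `c ≠ 0` real. -/
lemma real_eig {ι : Type} [Fintype ι] [DecidableEq ι] {L : Matrix ι ι ℂ} (hL : L.IsHermitian)
    {c : ℝ} {z : ι → ℂ} (hz : z ≠ 0) (h : L *ᵥ z = ((c : ℂ) * Complex.I) • z) :
    L *ᵥ z = 0 := by
  have h1 : star (L *ᵥ z) ⬝ᵥ z = star z ⬝ᵥ (L *ᵥ z) := by
    rw [star_mulVec, hL.eq, dotProduct_mulVec]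
  rw [h, star_smul, smul_dotProduct, dotProduct_smul] at h1
  have h2 : star z ⬝ᵥ z ≠ 0 := by
    intro h3
    exact hz (dotProduct_star_self_eq_zero.1 h3)
  have h3 : star ((c : ℂ) * Complex.I) = -((c : ℂ) * Complex.I) := by
    simp
  rw [h3, smul_eq_mul, smul_eq_mul] at h1
  have h4 : ((c : ℂ) * Complex.I) * (star z ⬝ᵥ z) = 0 := by linear_combination (-1 / 2 : ℂ) * h1
  have h5 : (c : ℂ) * Complex.I = 0 := (mul_eq_zero.1 h4).resolve_right h2
  rw [h, h5, zero_smul]

theorem t_red : S_red := by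
  intro hT n d m hn hm A γ hA1 hγ hsq hanti
  have : Nonempty (Fin n × Fin m) := ⟨(⟨0, hn⟩, ⟨0, hm⟩)⟩
  -- the generators on the product
  have g1 : ∀ j, hg n (γ j) * hg n (γ j) = 1 := fun j => by rw [hg_mul, hsq, hg_one]
  have g2 : ∀ j k, j ≠ k → hg n (γ j) * hg n (γ k) = -(hg n (γ k) * hg n (γ j)) := fun j k h => by
    rw [hg_mul, hg_mul, hanti j k h, hg_neg]
  have g3 : ∀ j k, hA m (A j) * hg n (γ k) = hg n (γ k) * hA m (A j) := fun j k => by
    rw [hA_hg, hg_hA]
  rcases Nat.even_or_odd' d with ⟨t, rfl | rfl⟩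
  · rcases t with _ | t
    · refine ⟨fun _ => 0, ?_⟩
      have : ∑ j : Fin (2 * 0), kronecker (A j - (((0 : ℝ) : ℂ)) •
          (1 : Matrix (Fin n) (Fin n) ℂ)) (γ j) = 0 := Finset.sum_empty
      rw [this]
      exact det_zero
    · obtain ⟨x, hx⟩ := hT (Fin n × Fin m) t (fun j => hg n (γ j)) (fun j => hA m (A j)) ⟨g1, g2⟩ g3
      refine ⟨x, ?_⟩
      rw [sum_eq]
      exact hx
  · -- doubling
    set G : Fin (2 * t + 1 + 1) → Matrix ((Fin n × Fin m) ⊕ (Fin n × Fin m))
        ((Fin n × Fin m) ⊕ (Fin n × Fin m)) ℂ :=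
      Fin.snoc (α := fun _ => Matrix ((Fin n × Fin m) ⊕ (Fin n × Fin m))
        ((Fin n × Fin m) ⊕ (Fin n × Fin m)) ℂ)
        (fun j => fromBlocks 0 (hg n (γ j)) (hg n (γ j)) 0)
        (fromBlocks 0 (-(Complex.I • 1)) (Complex.I • 1) 0) with hG
    set B : Fin (2 * t + 1 + 1) → Matrix ((Fin n × Fin m) ⊕ (Fin n × Fin m))
        ((Fin n × Fin m) ⊕ (Fin n × Fin m)) ℂ :=
      Fin.snoc (α := fun _ => Matrix ((Fin n × Fin m) ⊕ (Fin n × Fin m))
        ((Fin n × Fin m) ⊕ (Fin n × Fin m)) ℂ)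
        (fun j => fromBlocks (hA m (A j)) 0 0 (hA m (A j))) 0 with hB
    have Gc : ∀ j : Fin (2 * t + 1), G j.castSucc = fromBlocks 0 (hg n (γ j)) (hg n (γ j)) 0 :=
      fun j => by rw [hG, Fin.snoc_castSucc]
    have Gl : G (Fin.last (2 * t + 1)) = fromBlocks 0 (-(Complex.I • 1)) (Complex.I • 1) 0 := by
      rw [hG, Fin.snoc_last]
    have Bc : ∀ j : Fin (2 * t + 1), B j.castSucc = fromBlocks (hA m (A j)) 0 0 (hA m (A j)) :=
      fun j => by rw [hB, Fin.snoc_castSucc]
    have Bl : B (Fin.last (2 * t + 1)) = 0 := by rw [hB, Fin.snoc_last]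
    have one_bl : (1 : Matrix ((Fin n × Fin m) ⊕ (Fin n × Fin m))
        ((Fin n × Fin m) ⊕ (Fin n × Fin m)) ℂ) = fromBlocks 1 0 0 1 := fromBlocks_one.symm
    have hCl : Cl G := by
      constructor
      · intro j
        refine Fin.lastCases ?_ (fun j => ?_) j
        · rw [Gl, fromBlocks_multiply, one_bl]
          simp [smul_smul]
        · rw [Gc, fromBlocks_multiply, one_bl]
          simp only [zero_mul, mul_zero, add_zero, zero_add, g1]
      · intro j k
        refine Fin.lastCases ?_ (fun j => ?_) j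
        · refine Fin.lastCases ?_ (fun k => ?_) k
          · intro h; exact absurd rfl h
          · intro _
            rw [Gl, Gc, fromBlocks_multiply, fromBlocks_multiply, fromBlocks_neg]
            simp
        · refine Fin.lastCases ?_ (fun k => ?_) k
          · intro _
            rw [Gl, Gc, fromBlocks_multiply, fromBlocks_multiply, fromBlocks_neg]
            simp
          · intro h
            have hjk : j ≠ k := fun h' => h (by rw [h'])
            rw [Gc, Gc, fromBlocks_multiply, fromBlocks_multiply, fromBlocks_neg]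
            simp only [zero_mul, mul_zero, add_zero, zero_add, neg_zero, g2 j k hjk]
    have hcomm : ∀ j k, B j * G k = G k * B j := by
      intro j k
      refine Fin.lastCases ?_ (fun j => ?_) j
      · rw [Bl, zero_mul, mul_zero]
      · refine Fin.lastCases ?_ (fun k => ?_) k
        · rw [Bc, Gl, fromBlocks_multiply, fromBlocks_multiply]
          simp
        · rw [Bc, Gc, fromBlocks_multiply, fromBlocks_multiply]
          simp only [zero_mul, mul_zero, add_zero, zero_add, g3 j k]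
    have : Nonempty ((Fin n × Fin m) ⊕ (Fin n × Fin m)) :=
      ⟨Sum.inl (⟨0, hn⟩, ⟨0, hm⟩)⟩
    obtain ⟨x, hx⟩ := hT ((Fin n × Fin m) ⊕ (Fin n × Fin m)) t G B hCl hcomm
    set y : Fin (2 * t + 1) → ℝ := fun j => x j.castSucc with hy
    set c : ℝ := x (Fin.last (2 * t + 1)) with hc
    set L := ∑ j : Fin (2 * t + 1),
      kronecker (A j - ((y j : ℂ)) • (1 : Matrix (Fin n) (Fin n) ℂ)) (γ j) with hL
    refine ⟨y, ?_⟩
    have hM : ∑ j, B j * G j - X G x = fromBlocks 0 (L + ((c : ℂ) * Complex.I) • 1)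
        (L - ((c : ℂ) * Complex.I) • 1) 0 := by
      have e1 : ∑ j, B j * G j = fromBlocks 0 (∑ j, hA m (A j) * hg n (γ j))
          (∑ j, hA m (A j) * hg n (γ j)) 0 := by
        rw [Fin.sum_univ_castSucc, Bl, zero_mul, add_zero]
        have : ∀ j : Fin (2 * t + 1), B j.castSucc * G j.castSucc =
            fromBlocks 0 (hA m (A j) * hg n (γ j)) (hA m (A j) * hg n (γ j)) 0 := by
          intro j
          rw [Bc, Gc, fromBlocks_multiply]
          simp only [zero_mul, mul_zero, add_zero, zero_add]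
        simp_rw [this]
        ext i j
        rcases i with i | i <;> rcases j with j | j <;>
          simp [Matrix.sum_apply, fromBlocks]
      have e2 : X G x = fromBlocks 0 (∑ j, (y j : ℂ) • hg n (γ j) - ((c : ℂ) * Complex.I) • 1)
          (∑ j, (y j : ℂ) • hg n (γ j) + ((c : ℂ) * Complex.I) • 1) 0 := by
        unfold X
        rw [Fin.sum_univ_castSucc, Gl, fromBlocks_smul]
        have : ∀ j : Fin (2 * t + 1), (x j.castSucc : ℂ) • G j.castSucc =
            fromBlocks 0 ((y j : ℂ) • hg n (γ j)) ((y j : ℂ) • hg n (γ j)) 0 := by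
          intro j
          rw [Gc, fromBlocks_smul, smul_zero]
        simp_rw [this]
        ext i j
        rcases i with i | i <;> rcases j with j | j <;>
          simp [Matrix.sum_apply, fromBlocks, hc, mul_assoc, sub_eq_add_neg]
      rw [e1, e2, hL, sum_eq, sub_eq_add_neg, fromBlocks_neg, fromBlocks_add]
      congr 1
      · simp
      · abel
      · abel
      · simp
    rw [hM] at hx
    have hLh : L.IsHermitian := by
      rw [hL]
      unfold IsHermitian
      rw [conjTranspose_sum]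
      refine Finset.sum_congr rfl fun j _ => ?_
      have e1 := conjTranspose_kronecker (A j - ((y j : ℂ)) • (1 : Matrix (Fin n) (Fin n) ℂ)) (γ j)
      have e2 : (A j - ((y j : ℂ)) • (1 : Matrix (Fin n) (Fin n) ℂ))ᴴ =
          A j - ((y j : ℂ)) • (1 : Matrix (Fin n) (Fin n) ℂ) := by
        rw [conjTranspose_sub, conjTranspose_smul, conjTranspose_one, (hA1 j).eq]
        simp
      rw [e2, (hγ j).eq] at e1
      exact e1
    obtain ⟨v, hv0, hv⟩ := exists_mulVec_eq_zero_iff.2 hx
    have hv2 : v = Sum.elim (v ∘ Sum.inl) (v ∘ Sum.inr) := (Sum.elim_comp_inl_inr v).symm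
    rw [hv2, fromBlocks_mulVec] at hv
    have u1 : (L + ((c : ℂ) * Complex.I) • 1) *ᵥ (v ∘ Sum.inr) = 0 := by
      have := congrArg (fun f => f ∘ Sum.inl) hv
      simpa using this
    have u2 : (L - ((c : ℂ) * Complex.I) • 1) *ᵥ (v ∘ Sum.inl) = 0 := by
      have := congrArg (fun f => f ∘ Sum.inr) hv
      simpa using this
    rw [add_mulVec, smul_mulVec, one_mulVec] at u1
    rw [sub_mulVec, smul_mulVec, one_mulVec] at u2
    apply exists_mulVec_eq_zero_iff.1
    by_cases hz : v ∘ Sum.inl = 0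
    · have hw : v ∘ Sum.inr ≠ 0 := by
        intro hw
        apply hv0
        rw [hv2, hz, hw]
        ext i
        rcases i with i | i <;> rfl
      refine ⟨v ∘ Sum.inr, hw, real_eig hLh (c := -c) hw ?_⟩
      rw [eq_neg_of_add_eq_zero_left u1]
      push_cast
      rw [neg_mul, neg_smul]
    · refine ⟨v ∘ Sum.inl, hz, real_eig hLh (c := c) hz ?_⟩
      exact sub_eq_zero.1 u2

end Pool.Agent.Y427.CS
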